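import Pool.Agent.COSB.StmtsE

/-!
# COSB, row RSF: the theorem for finite fields
-/

set_option autoImplicit false

namespace Pool.Agent.COSB.H52

open Turing Computability Pool.Agent.UT.Num Pool.Agent.H2XG Pool.Agent.PAR Pool.Agent.COS
open Pool.Agent.COSB

theorem rsf_aux (E : Type) [Field E] [Finite E] (c : E → Word) (p s : ℕ)
    (θ : E → Matrix (Fin s) (Fin s) (ZMod (p ^ 1))) (V W : Word × Word → Bool) (x : Word)
    (n K N : ℕ) (hK : K = 1) (hN : N = n * s)
    (hR : ∀ (S : Set (Matrix.GeneralLinearGroup (Fin n) E)), Heap S →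
      Heap {B : Gp p 1 (n * s) | ∃ A ∈ S, ∀ r t : Fin (n * s),
        B.1 r t = θ (A.1 r.divNat t.divNat) r.modNat t.modNat} ∧
      ({B : Gp p 1 (n * s) | ∃ A ∈ S, ∀ r t : Fin (n * s),
        B.1 r t = θ (A.1 r.divNat t.divNat) r.modNat t.modNat}.Nonempty ↔ S.Nonempty) ∧
      (∀ (B : Gp p 1 (n * s)) (A : Matrix (Fin n) (Fin n) E), (∀ r t : Fin (n * s),
        B.1 r t = θ (A r.divNat t.divNat) r.modNat t.modNat) → IsUnit A))
    (hmain : ∀ B : Matrix (Fin (n * s)) (Fin (n * s)) (ZMod (p ^ 1)),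
      W (x, encP p 1 (n * s) B) = true ↔
        ∃ A : Matrix (Fin n) (Fin n) E, V (x, encE c A) = true ∧
          ∀ r t : Fin (n * s), B r t = θ (A r.divNat t.divNat) r.modNat t.modNat)
    (hS : Heap {A : Matrix.GeneralLinearGroup (Fin n) E | V (x, encE c A.1) = true}) :
    Heap {B : Gp p K N | W (x, encP p K N B.1) = true} ∧
      ({B : Gp p K N | W (x, encP p K N B.1) = true}.Nonempty ↔
        {A : Matrix.GeneralLinearGroup (Fin n) E | V (x, encE c A.1) = true}.Nonempty) := by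
  subst hK
  subst hN
  obtain ⟨h1, h2, h3⟩ := hR _ hS
  have e : {B : Gp p 1 (n * s) | W (x, encP p 1 (n * s) B.1) = true} =
      {B : Gp p 1 (n * s) | ∃ A ∈ {A : Matrix.GeneralLinearGroup (Fin n) E |
        V (x, encE c A.1) = true}, ∀ r t : Fin (n * s),
          B.1 r t = θ (A.1 r.divNat t.divNat) r.modNat t.modNat} := by
    ext B
    rw [Set.mem_setOf_eq, Set.mem_setOf_eq, hmain]
    constructor
    · rintro ⟨A, hA, hB⟩
      obtain ⟨u, hu⟩ := h3 B A hB
      subst hu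
      exact ⟨u, hA, hB⟩
    · rintro ⟨A, hA, hB⟩
      exact ⟨A.1, hA, hB⟩
  rw [e]
  exact ⟨h1, h2⟩

theorem rsf (hRST : RstStmt) (hRSM : RsmStmt) : RsfStmt := by
  intro hM E _ _ c V d hV P hP
  obtain ⟨p, s, θ, hp, hs, hθ, hR⟩ := hRST E
  obtain ⟨V', hV', hmain⟩ := hRSM E c p s θ hp hs hθ V d hV
  have key : ∀ x ∈ P, Heap (modSols V' p (d * Polynomial.C s) 1 x) ∧
      ((modSols V' p (d * Polynomial.C s) 1 x).Nonempty ↔ (fldSols c V d x).Nonempty) := by
    intro x hx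
    exact rsf_aux E c p s θ V V' x (d.eval x.length) ((1 : Polynomial ℕ).eval x.length)
      ((d * Polynomial.C s).eval x.length) (by simp) (by simp)
      (fun S hS => hR _ S hS) (hmain x _ rfl) (hP x hx)
  obtain ⟨L, hL, hLP⟩ := hM p hp V' (d * Polynomial.C s) 1 hV' (fun n => by simp) P
    (fun x hx => (key x hx).1)
  exact ⟨L, hL, fun x hx => (hLP x hx).trans (key x hx).2⟩

end Pool.Agent.COSB.H52
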